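import Mathlib
import Pool.Agent.Work.MP_417103_nt.Defs
import Pool.Agent.Work.MP_417103_nt.Final

set_option autoImplicit false

namespace Pool.Agent.Results.MP_417103_nt.LatticeWidth

open Pool.Agent.MP_417103_nt

/-- Boyd's growth statement for polynomials of bounded lattice width: if `P` is an irreducible
integer polynomial in any number of variables, reciprocal or not, and the integer linear form `μ`
is not constant on the exponents of `P` and takes there values at distance at most `w`, then the
dimension of the Newton polytope of `P` is at most `10^6 w^7 M(P)^14`. -/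
theorem result :
    ∀ (n : ℕ) (P : MvPolynomial (Fin n) ℤ) (μ : Fin n → ℤ) (w : ℕ), Irreducible P →
      WidthLE P μ w → (newtonDim P : ℝ) ≤ 10 ^ 6 * (w : ℝ) ^ 7 * mahlerM P ^ 14 :=
  fun _ P μ w hP hw => Pool.Agent.Work.MP_417103_nt.width_bound P hP μ w hw

end Pool.Agent.Results.MP_417103_nt.LatticeWidth
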