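import Mathlib
import Pool.Agent.Work.MP_417103_nt.Defs
import Pool.Agent.Work.MP_417103_nt.Final

set_option autoImplicit false

namespace Pool.Agent.Results.MP_417103_nt.Nonreciprocal

open Pool.Agent.MP_417103_nt

/-- Boyd's growth statement for nonreciprocal polynomials, with a polynomial rate: if `P` is an
irreducible integer polynomial in any number of variables which is not reciprocal, then the
dimension of its Newton polytope is at most `3000 M(P)^14`. -/
theorem result :
    ∀ (n : ℕ) (P : MvPolynomial (Fin n) ℤ), Irreducible P → ¬ IsReciprocal P →
      (newtonDim P : ℝ) ≤ 3000 * mahlerM P ^ 14 :=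
  fun _ P hP hr => Pool.Agent.Work.MP_417103_nt.nonreciprocal_bound P hP hr

end Pool.Agent.Results.MP_417103_nt.Nonreciprocal
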